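import Pool.Agent.V1121.PG.Sum
import Pool.Agent.V1121.PG.Half

/-!
# The Paley graph conjecture for sets of polynomial growth

The hypothesis of small doubling is replaced by a bound for one iterated sumset `n P`, `n` being as large
as a small power of `p`: `|n P| ≤ n ^ C |P|`. Such a set `P` may have doubling constant as large as a power
of `p`.
-/

set_option autoImplicit false

namespace Pool.Agent.Results.MP_f6e9a2_nt.PolynomialGrowthPairs

open scoped Pointwise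

/-- the `n`-fold sumset `P + ... + P` -/
noncomputable def fold {p : ℕ} (n : ℕ) (P : Finset (ZMod p)) : Finset (ZMod p) := by
  classical exact (Fintype.piFinset fun _ : Fin n => P).image fun f => ∑ i, f i

/-- (1) `P` with `|n P| ≤ L |P|`, `A` and `B` nearly invariant under `P`; (2) the case `L = n ^ C`,
`n ≤ p ^ τ`: power saving; (3) power saving if only `A` is nearly invariant under `P`, and `B` is arbitrary. -/
theorem result :
    (∀ ε : ℝ, 0 < ε → ε ≤ 1 / 4 → ∃ c : ℝ, 0 < c ∧ ∀ p : ℕ, p.Prime →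
      ∀ χ : DirichletCharacter ℂ p, χ ≠ 1 → ∀ k n : ℕ, 1 ≤ k → 2 ≤ n →
      ∀ (L x : ℝ) (P : Finset (ZMod p)), (p : ℝ) ^ (1 / 4 + ε) < P.card →
        ((fold n P).card : ℝ) ≤ L * P.card → Real.log (2 * L) ≤ (n : ℝ) ^ k →
        x = 1 + Real.log (2 * L) / Real.log n →
        k * Real.log (2 * L) * x ^ 4 ≤ c * Real.log p →
        ∀ A B : Finset (ZMod p), A.Nonempty → B.Nonempty →
          ((A + P).card : ℝ) ≤ Real.exp (c * Real.log p / x ^ 4) * A.card →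
          ((B - P).card : ℝ) ≤ Real.exp (c * Real.log p / x ^ 4) * B.card →
          ∀ f g : ZMod p → ℂ, ‖∑ a ∈ A, ∑ b ∈ B, f a * g b * χ (a + b)‖
            ≤ Real.exp (-(c * Real.log p / x ^ 4)) * (Real.sqrt (A.card * B.card) *
              (Real.sqrt (∑ a ∈ A, ‖f a‖ ^ 2) * Real.sqrt (∑ b ∈ B, ‖g b‖ ^ 2)))) ∧
    (∀ δ : ℝ, 1 / 4 < δ → ∀ C : ℕ, ∃ τ : ℝ, 0 < τ ∧ ∀ p : ℕ, p.Prime →
      ∀ χ : DirichletCharacter ℂ p, χ ≠ 1 → ∀ n : ℕ, 2 ≤ n → (n : ℝ) ≤ (p : ℝ) ^ τ →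
      ∀ P : Finset (ZMod p), (p : ℝ) ^ δ < P.card →
        ((fold n P).card : ℝ) ≤ (n : ℝ) ^ C * P.card →
        ∀ A B : Finset (ZMod p), A.Nonempty → B.Nonempty →
          ((A + P).card : ℝ) ≤ (p : ℝ) ^ τ * A.card →
          ((B - P).card : ℝ) ≤ (p : ℝ) ^ τ * B.card →
          ∀ f g : ZMod p → ℂ, ‖∑ a ∈ A, ∑ b ∈ B, f a * g b * χ (a + b)‖
            ≤ (p : ℝ) ^ (-τ) * (Real.sqrt (A.card * B.card) *
              (Real.sqrt (∑ a ∈ A, ‖f a‖ ^ 2) * Real.sqrt (∑ b ∈ B, ‖g b‖ ^ 2)))) ∧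
    (∀ ε : ℝ, 0 < ε → ∀ C : ℕ, ∃ τ : ℝ, 0 < τ ∧ ∃ p₀ : ℕ, ∀ p : ℕ, p.Prime → p₀ ≤ p →
      ∀ χ : DirichletCharacter ℂ p, χ ≠ 1 → ∀ n : ℕ, 2 ≤ n → (n : ℝ) ≤ (p : ℝ) ^ τ →
      ∀ P : Finset (ZMod p), (p : ℝ) ^ ε ≤ P.card →
        ((fold n P).card : ℝ) ≤ (n : ℝ) ^ C * P.card →
        ∀ A B : Finset (ZMod p), ((A + P).card : ℝ) ≤ (p : ℝ) ^ τ * A.card →
          (p : ℝ) ^ ε ≤ B.card →
          (p : ℝ) ^ (1 + ε) ≤ A.card * B.card * (P.card : ℝ) ^ (1 / (420 * ((C : ℝ) + 2))) →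
          ∀ f g : ZMod p → ℂ, ‖∑ a ∈ A, ∑ b ∈ B, f a * g b * χ (a + b)‖
            ≤ (p : ℝ) ^ (-τ) * (Real.sqrt (A.card * B.card) *
              (Real.sqrt (∑ a ∈ A, ‖f a‖ ^ 2) * Real.sqrt (∑ b ∈ B, ‖g b‖ ^ 2)))) := by
  classical
  have hfold : ∀ {p : ℕ} (n : ℕ) (P : Finset (ZMod p)), (fold n P).card =
      ((Fintype.piFinset fun _ : Fin n => P).image fun f => ∑ i, f i).card := by
    intro p n P
    unfold fold
    congr!
  refine ⟨?_, ?_, ?_⟩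
  · intro ε hε0 hε
    obtain ⟨c, hc, h⟩ := V1121.PG.poly_growth (ε / 5) (by linarith) (by linarith)
    refine ⟨c, hc, ?_⟩
    intro p hp χ hχ k n hk hn L x P hP hL hkn hx hcond A B hA hB hAP hBP f g
    have : Fact p.Prime := ⟨hp⟩
    refine V1121.PG.add_form (fun z => χ z) A B _ ?_ f g
    intro f g
    refine h p χ hχ k n hk hn L x P ?_ (by rw [← hfold]; exact hL) hkn hx hcond A (-B) hA
      hB.neg hAP ?_ f g
    · rw [show (1 : ℝ) / 4 + 5 * (ε / 5) = 1 / 4 + ε by ring]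
      exact hP
    · rw [V1121.PG.card_neg_add, Finset.card_neg]
      exact hBP
  · intro δ hδ C
    obtain ⟨τ, hτ, h⟩ := V1121.PG.poly_power δ hδ C
    refine ⟨τ, hτ, ?_⟩
    intro p hp χ hχ n hn hnp P hP hL A B hA hB hAP hBP f g
    have : Fact p.Prime := ⟨hp⟩
    have hp1 : (1 : ℝ) ≤ p := by exact_mod_cast hp.one_lt.le
    refine V1121.PG.add_form (fun z => χ z) A B _ ?_ f g
    intro f g
    refine (h p χ hχ n hn hnp P hP (by rw [← hfold]; exact hL) A (-B) hA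
      hB.neg hAP ?_ f g).trans (mul_le_mul_of_nonneg_right ?_ (by positivity))
    · rw [V1121.PG.card_neg_add, Finset.card_neg]
      exact hBP
    · exact Real.rpow_le_rpow_of_exponent_le hp1 (by linarith)
  · intro ε hε C
    obtain ⟨τ, hτ, p₀, h⟩ := V1121.PG.one_structured ε hε C
    refine ⟨τ, hτ, p₀, ?_⟩
    intro p hp hp₀ χ hχ n hn hnp P hP hL A B hAP hB hABP f g
    have : Fact p.Prime := ⟨hp⟩
    have h1 := h p hp₀ χ hχ n hn hnp P hP (by rw [← hfold]; exact hL) A B hAP hB hABP f g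
    rw [Real.sqrt_mul (Nat.cast_nonneg _)]
    exact h1

end Pool.Agent.Results.MP_f6e9a2_nt.PolynomialGrowthPairs
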