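import Pool.Agent.V11298.PI.Lev

/-!
# MP_f6e9a2_nt (Paley graph conjecture): the bound holds for almost all polynomial images

For all sets `A, B` of size at least `p^ε` and every `k`, the bound `|∑ χ(a + f(b))| ≤ p^{-δ} |A| |B|` holds for all
nonconstant polynomials `f` of degree at most `k` outside an exceptional set of at most
`min (p^{k-c}, p^{k+1/2+ε} / |A|)` polynomials (there are about `p^{k+1}` polynomials), where `c`, `δ` depend only on
`ε`, not on `k`. For large `k` there is a better bound, valid for sets of all sizes `≥ M`: at most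
`(2r)^{2r} p^{k+1} / (θ M)^{2r}`, `2r ≤ k + 1`, polynomials have `|∑ χ(a + f(b))| ≥ θ |A| |B|`.

Proof. (1) The nonconstant polynomials split into pencils `s + t h`; the level sets of the multiplicities of the
values of `h` on `B` are sets `Y` to which the starting result on affine images `χ(a + s + t y)`, `y` in `Y`, applies.
(2) The `2r`-th moment over all polynomials: the values at `2r` points are independent, and the correlations of the
sums `∑ χ(a + y)` over `A` are computed exactly.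
-/

set_option autoImplicit false

namespace Pool.Agent.Results.MP_f6e9a2_nt.PolynomialImages

/-- (1) For every `ε > 0` there are `c, δ > 0` such that for all `k ≥ 1`, all large primes `p`, all nontrivial
characters `χ` mod `p` and all sets `A, B` of at least `p^ε` residues there are at most
`min (p^{k-c}, p^{k+1/2+ε} / |A|)` nonconstant polynomials `f = ∑ f_i x^i` of degree at most `k` with
`|∑_{a ∈ A, b ∈ B} χ(a + f(b))| > p^{-δ} |A| |B|`. (2) For all primes `p`, all sets `A, B` of at least `M` residues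
and `1 ≤ r`, `2 r ≤ n`, there are at most `(2r)^{2r} p^n / (θ M)^{2r}` polynomials `f` of degree less than `n` with
`|∑_{a ∈ A, b ∈ B} χ(a + f(b))| ≥ θ |A| |B|`. -/
theorem result :
    (∀ ε : ℝ, 0 < ε → ∃ c : ℝ, 0 < c ∧ ∃ δ : ℝ, 0 < δ ∧ ∀ k : ℕ, 1 ≤ k → ∃ p₀ : ℕ,
      ∀ (p : ℕ) [Fact p.Prime], p₀ ≤ p → ∀ χ : DirichletCharacter ℂ p, χ ≠ 1 →
      ∀ A B : Finset (ZMod p), (p : ℝ) ^ ε ≤ A.card → (p : ℝ) ^ ε ≤ B.card →
        ({f : Fin (k + 1) → ZMod p | (∃ i, i ≠ 0 ∧ f i ≠ 0) ∧ (p : ℝ) ^ (-δ) * (A.card * B.card) <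
            ‖∑ a ∈ A, ∑ b ∈ B, χ (a + ∑ i, f i * b ^ (i : ℕ))‖}.ncard : ℝ) ≤
          min ((p : ℝ) ^ ((k : ℝ) - c)) ((p : ℝ) ^ ((k : ℝ) + 1 / 2 + ε) / A.card)) ∧
    (∀ (p : ℕ) [Fact p.Prime] (χ : DirichletCharacter ℂ p), χ ≠ 1 → ∀ (A B : Finset (ZMod p)) (r n : ℕ),
      1 ≤ r → 2 * r ≤ n → ∀ M θ : ℝ, 0 < M → 0 < θ → M ≤ A.card → M ≤ B.card →
        ({f : Fin n → ZMod p | θ * (A.card * B.card) ≤
            ‖∑ a ∈ A, ∑ b ∈ B, χ (a + ∑ i, f i * b ^ (i : ℕ))‖}.ncard : ℝ) ≤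
          (2 * r : ℝ) ^ (2 * r) * (p : ℝ) ^ n / (θ * M) ^ (2 * r)) :=
  ⟨fun ε hε => Pool.Agent.V11298.PI.few ε hε, fun p _ χ hχ A B r n hr0 hr M θ hM hθ hA hB =>
    Pool.Agent.V11298.PI.count χ hχ A B r n hr0 hr M θ hM hθ hA hB⟩

end Pool.Agent.Results.MP_f6e9a2_nt.PolynomialImages
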